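import Pool.Agent.W548.MQ.Stm

set_option autoImplicit false

open Polynomial

namespace Pool.Agent.W991.MQ

open W548.MQ

/-- the base ring -/
abbrev Rx : Type := Polynomial ℚ

/-- the discriminant -/
noncomputable def Dd : Rx := 1 - X ^ 2

theorem P_eq : P = (X : Polynomial Rx) ^ 2 - C Dd := rfl

theorem P_monic : P.Monic := by
  rw [P_eq]
  exact monic_X_pow_sub_C _ two_ne_zero

theorem P_natDegree : P.natDegree = 2 := by
  rw [P_eq]
  exact natDegree_X_pow_sub_C

theorem of_inj : Function.Injective (AdjoinRoot.of P) := by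
  refine AdjoinRoot.of.injective_of_degree_ne_zero ?_
  rw [degree_eq_natDegree P_monic.ne_zero, P_natDegree]
  norm_num

theorem y_sq : y ^ 2 = AdjoinRoot.of P Dd := by
  have h : AdjoinRoot.mk P P = 0 := AdjoinRoot.mk_self
  have h2 : AdjoinRoot.mk P P = y ^ 2 - AdjoinRoot.of P Dd := by
    change AdjoinRoot.mk P ((X : Polynomial Rx) ^ 2 - C Dd) = _
    rw [map_sub, map_pow, AdjoinRoot.mk_X, AdjoinRoot.mk_C]
    rfl
  rw [h2] at h
  exact sub_eq_zero.1 h

theorem rep_pow (n : ℕ) : ∃ p q : Rx, y ^ n = AdjoinRoot.of P p + AdjoinRoot.of P q * y := by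
  induction n with
  | zero => exact ⟨1, 0, by simp⟩
  | succ n ih =>
    obtain ⟨p, q, h⟩ := ih
    refine ⟨q * Dd, p, ?_⟩
    rw [pow_succ, h, map_mul, ← y_sq]
    ring

theorem rep (a : A) : ∃ p q : Rx, a = AdjoinRoot.of P p + AdjoinRoot.of P q * y := by
  induction a using AdjoinRoot.induction_on with
  | ih f =>
    induction f using Polynomial.induction_on' with
    | add f g hf hg =>
      obtain ⟨p, q, h⟩ := hf
      obtain ⟨p', q', h'⟩ := hg
      refine ⟨p + p', q + q', ?_⟩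
      rw [map_add, h, h', map_add, map_add]
      ring
    | monomial n c =>
      obtain ⟨p, q, h⟩ := rep_pow n
      refine ⟨c * p, c * q, ?_⟩
      rw [← C_mul_X_pow_eq_monomial, map_mul, map_pow, AdjoinRoot.mk_X, AdjoinRoot.mk_C]
      change AdjoinRoot.of P c * y ^ n = _
      rw [h, map_mul, map_mul]
      ring

/-- conjugation -/
noncomputable def cj : A →+* A := AdjoinRoot.lift (AdjoinRoot.of P) (-y) (by
  change eval₂ (AdjoinRoot.of P) (-y) ((X : Polynomial Rx) ^ 2 - C Dd) = 0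
  rw [eval₂_sub, eval₂_pow, eval₂_X, eval₂_C, neg_sq, y_sq, sub_self])

theorem cj_of (p : Rx) : cj (AdjoinRoot.of P p) = AdjoinRoot.of P p := by
  unfold cj
  exact AdjoinRoot.lift_of _

theorem cj_y : cj y = -y := by
  unfold cj
  exact AdjoinRoot.lift_root _

theorem cj_cj (a : A) : cj (cj a) = a := by
  obtain ⟨p, q, rfl⟩ := rep a
  simp only [map_add, map_mul, cj_of, cj_y, map_neg, neg_neg]

theorem cj_inj : Function.Injective cj := fun a b h => by
  rw [← cj_cj a, h, cj_cj]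

theorem Dd_sep : IsCoprime Dd (derivative Dd) := by
  refine ⟨1, -(C (1 / 2 : ℚ) * X), ?_⟩
  unfold Dd
  rw [derivative_sub, derivative_one, derivative_X_pow]
  have h2 : (C (1 / 2 : ℚ) : Rx) * C ((2 : ℕ) : ℚ) = 1 := by
    rw [← C_mul]
    norm_num
  calc (1 : Rx) * (1 - X ^ 2) + -(C (1 / 2 : ℚ) * X) * (0 - C ((2 : ℕ) : ℚ) * X ^ (2 - 1))
      = 1 - X ^ 2 + (C (1 / 2 : ℚ) * C ((2 : ℕ) : ℚ)) * X ^ 2 := by
        simp only [Nat.reduceSub, pow_one]
        ring
    _ = 1 := by rw [h2]; ring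

theorem dvd_of_sq (r q : Rx) (hr : r ≠ 0) (h : r ^ 2 ∣ q ^ 2 * Dd) : r ∣ q := by
  obtain ⟨g, r', q', hg, hcop, er, eq'⟩ : ∃ g r' q' : Rx, g ≠ 0 ∧ IsCoprime r' q' ∧
      r = g * r' ∧ q = g * q' := by
    have hg : EuclideanDomain.gcd r q ≠ 0 := fun h0 => hr ((EuclideanDomain.gcd_eq_zero_iff.1 h0).1)
    obtain ⟨r', er⟩ := EuclideanDomain.gcd_dvd_left r q
    obtain ⟨q', eq'⟩ := EuclideanDomain.gcd_dvd_right r q
    refine ⟨EuclideanDomain.gcd r q, r', q', hg, ?_, er, eq'⟩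
    refine ⟨EuclideanDomain.gcdA r q, EuclideanDomain.gcdB r q, ?_⟩
    refine mul_left_cancel₀ hg ?_
    have h1 := EuclideanDomain.gcd_eq_gcd_ab r q
    calc EuclideanDomain.gcd r q *
          (EuclideanDomain.gcdA r q * r' + EuclideanDomain.gcdB r q * q')
        = (EuclideanDomain.gcd r q * r') * EuclideanDomain.gcdA r q +
          (EuclideanDomain.gcd r q * q') * EuclideanDomain.gcdB r q := by ring
      _ = r * EuclideanDomain.gcdA r q + q * EuclideanDomain.gcdB r q := by rw [← er, ← eq']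
      _ = EuclideanDomain.gcd r q * 1 := by rw [← h1, mul_one]
  have h1 : r' ^ 2 ∣ q' ^ 2 * Dd := by
    have hg2 : g ^ 2 ≠ 0 := pow_ne_zero 2 hg
    refine (mul_dvd_mul_iff_left hg2).1 ?_
    rw [er, eq'] at h
    convert h using 1 <;> ring
  have h2 : r' ^ 2 ∣ Dd := (IsCoprime.pow hcop).dvd_of_dvd_mul_left h1
  have h3 : IsUnit r' := by
    obtain ⟨c, hc⟩ := h2
    refine isUnit_of_dvd_one ?_
    obtain ⟨a, b, hab⟩ := Dd_sep
    rw [← hab, hc]
    refine dvd_add (Dvd.dvd.mul_left (Dvd.intro _ (by ring : r' * (r' * c) = _)) _)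
      (Dvd.dvd.mul_left ?_ _)
    rw [derivative_mul, derivative_pow]
    refine dvd_add (Dvd.dvd.mul_right (Dvd.dvd.mul_right (Dvd.dvd.mul_left ?_ _) _) _)
      (Dvd.dvd.mul_right (Dvd.intro _ (pow_two r').symm) _)
    simp
  rw [er, eq']
  exact mul_dvd_mul_left g h3.dvd

theorem A_integral : Algebra.IsIntegral Rx A := by
  refine ⟨fun a => ?_⟩
  obtain ⟨p, q, rfl⟩ := rep a
  have hy : IsIntegral Rx y := AdjoinRoot.isIntegral_root' P_monic
  have hp : ∀ p : Rx, IsIntegral Rx (AdjoinRoot.of P p) := fun p => by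
    rw [← AdjoinRoot.algebraMap_eq]
    exact isIntegral_algebraMap
  exact (hp p).add ((hp q).mul hy)

theorem dvd_of_int (K : Type) [Field K] [Algebra Rx K]
    (hinj : Function.Injective (algebraMap Rx K)) (u w : Rx) (hw : w ≠ 0)
    (h : IsIntegral Rx (algebraMap Rx K u / algebraMap Rx K w)) : w ∣ u := by
  let f : FractionRing Rx →ₐ[Rx] K := IsFractionRing.liftAlgHom (g := Algebra.ofId Rx K) hinj
  have hf : Function.Injective f := f.toRingHom.injective
  have e : algebraMap Rx K u / algebraMap Rx K w =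
      f (algebraMap Rx (FractionRing Rx) u / algebraMap Rx (FractionRing Rx) w) := by
    rw [map_div₀, AlgHom.commutes, AlgHom.commutes]
  rw [e, isIntegral_algHom_iff f hf, IsIntegrallyClosed.isIntegral_iff] at h
  obtain ⟨v, hv⟩ := h
  have hw' : algebraMap Rx (FractionRing Rx) w ≠ 0 := by
    rw [Ne, IsFractionRing.to_map_eq_zero_iff]
    exact hw
  rw [eq_div_iff hw', ← map_mul] at hv
  have h3 := IsFractionRing.injective Rx (FractionRing Rx) hv
  exact ⟨v, by rw [← h3, mul_comm]⟩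

theorem t_IC (hD : IsDomain A) : S_IC := by
  unfold S_IC
  rw [isIntegrallyClosed_iff (FractionRing A)]
  intro z hz
  have hfin := A_integral
  have hz' : IsIntegral Rx z := isIntegral_trans z hz
  let κ : A →+* FractionRing A := algebraMap A (FractionRing A)
  have hκ : Function.Injective κ := IsFractionRing.injective A (FractionRing A)
  let ψ : FractionRing A →+* FractionRing A :=
    IsFractionRing.lift (g := κ.comp cj) (hκ.comp cj_inj)
  have hψ : ∀ a : A, ψ (κ a) = κ (cj a) := fun a =>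
    IsFractionRing.lift_algebraMap (g := κ.comp cj) (hκ.comp cj_inj) a
  have hα : ∀ p : Rx, algebraMap Rx (FractionRing A) p = κ (AdjoinRoot.of P p) := fun p => by
    rw [IsScalarTower.algebraMap_apply Rx A (FractionRing A), AdjoinRoot.algebraMap_eq]
  have hαinj : Function.Injective (algebraMap Rx (FractionRing A)) := fun p q h => by
    rw [hα, hα] at h
    exact of_inj (hκ h)
  have hψz : IsIntegral Rx (ψ z) := by
    refine IsIntegral.map_of_comp_eq (RingHom.id Rx) ψ ?_ hz'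
    refine RingHom.ext fun p => ?_
    rw [RingHom.comp_id, RingHom.comp_apply, hα, hψ, cj_of]
  obtain ⟨a, b, hb, hab⟩ := IsFractionRing.div_surjective A z
  have hb0 : b ≠ 0 := nonZeroDivisors.ne_zero hb
  obtain ⟨b1, b2, hb12⟩ := rep b
  obtain ⟨p, q, hpq⟩ := rep (a * cj b)
  obtain ⟨r, hr⟩ : ∃ r : Rx, r = b1 ^ 2 - b2 ^ 2 * Dd := ⟨_, rfl⟩
  have hbb : b * cj b = AdjoinRoot.of P r := by
    rw [hr, hb12]
    simp only [map_add, map_mul, cj_of, cj_y, map_sub, map_pow, ← y_sq]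
    ring
  have hcb0 : cj b ≠ 0 := fun h => hb0 (cj_inj (by rw [h, map_zero]))
  have hr0 : r ≠ 0 := by
    intro h
    rw [h, map_zero] at hbb
    exact (mul_ne_zero hb0 hcb0) hbb
  have hκr : κ (AdjoinRoot.of P r) ≠ 0 := by
    rw [← hbb]
    intro h
    exact (mul_ne_zero hb0 hcb0) (hκ (by rw [h, map_zero]))
  have hzr : z * κ (AdjoinRoot.of P r) = κ (AdjoinRoot.of P p) + κ (AdjoinRoot.of P q) * κ y := by
    have hκb : κ b ≠ 0 := fun h => hb0 (hκ (by rw [h, map_zero]))
    rw [← map_mul, ← map_add, ← hpq, ← hbb, map_mul, map_mul, ← hab]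
    change κ a / κ b * (κ b * κ (cj b)) = κ a * κ (cj b)
    field_simp
  have hψr : ψ z * κ (AdjoinRoot.of P r) =
      κ (AdjoinRoot.of P p) - κ (AdjoinRoot.of P q) * κ y := by
    have h := congrArg ψ hzr
    rw [map_mul, map_add, map_mul, hψ, hψ, hψ, hψ, cj_of, cj_of, cj_of, cj_y, map_neg] at h
    rw [h]
    ring
  have hsum : z + ψ z = algebraMap Rx (FractionRing A) (2 * p) /
      algebraMap Rx (FractionRing A) r := by
    rw [hα, hα, eq_div_iff hκr, add_mul, hzr, hψr, map_mul, map_mul, map_ofNat, map_ofNat]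
    ring
  have h1 : r ∣ 2 * p := dvd_of_int _ hαinj _ _ hr0 (by rw [← hsum]; exact hz'.add hψz)
  have h2 : r ∣ p := by
    have h3 := h1.mul_left (C (1 / 2 : ℚ))
    have h4 : C (1 / 2 : ℚ) * (2 * p) = p := by
      rw [← mul_assoc]
      have : C (1 / 2 : ℚ) * (2 : Rx) = 1 := by
        rw [← C_ofNat, ← C_mul]
        norm_num
      rw [this, one_mul]
    rwa [h4] at h3
  have hprod : z * ψ z = algebraMap Rx (FractionRing A) (p ^ 2 - q ^ 2 * Dd) /
      algebraMap Rx (FractionRing A) (r ^ 2) := by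
    rw [hα, hα, eq_div_iff (by rw [map_pow, map_pow]; exact pow_ne_zero 2 hκr)]
    have e1 : z * ψ z * κ (AdjoinRoot.of P (r ^ 2)) =
        (z * κ (AdjoinRoot.of P r)) * (ψ z * κ (AdjoinRoot.of P r)) := by
      rw [map_pow, map_pow]
      ring
    rw [e1, hzr, hψr, map_sub, map_mul, map_pow, map_pow, ← y_sq]
    simp only [map_sub, map_mul, map_pow]
    ring
  have h3 : r ^ 2 ∣ p ^ 2 - q ^ 2 * Dd :=
    dvd_of_int _ hαinj _ _ (pow_ne_zero 2 hr0) (by rw [← hprod]; exact hz'.mul hψz)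
  have h4 : r ^ 2 ∣ q ^ 2 * Dd := by
    have h5 := dvd_sub (pow_dvd_pow_of_dvd h2 2) h3
    rwa [sub_sub_cancel] at h5
  obtain ⟨q', hq'⟩ := dvd_of_sq r q hr0 h4
  obtain ⟨p', hp'⟩ := h2
  refine ⟨AdjoinRoot.of P p' + AdjoinRoot.of P q' * y, ?_⟩
  refine mul_right_cancel₀ hκr ?_
  rw [hzr, hp', hq']
  change κ (AdjoinRoot.of P p' + AdjoinRoot.of P q' * y) * κ (AdjoinRoot.of P r) = _
  simp only [map_mul, map_add]
  ring

end Pool.Agent.W991.MQ
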